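import Mathlib

/-!
# MP_56f6b7_co, Q1: a balanced Butson matrix that is not a generalised Hadamard matrix

We construct a normalised `BH(4, 4096)` which is row balanced and column balanced, and which is
not a generalised Hadamard matrix.
-/

namespace Pool.Agent.Results.MP_56f6b7_co.BalancedNotGH

open Matrix Finset

/-- `H` is a Butson Hadamard matrix `BH(w, v)`. -/
def IsButson (w : ℕ) {v : ℕ} (H : Matrix (Fin v) (Fin v) ℂ) : Prop :=
  (∀ i j, H i j ^ w = 1) ∧ H * Hᴴ = (v : ℂ) • (1 : Matrix (Fin v) (Fin v) ℂ)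

/-- The first row and the first column consist of ones. -/
def Normalised {v : ℕ} [NeZero v] (H : Matrix (Fin v) (Fin v) ℂ) : Prop :=
  (∀ j, H 0 j = 1) ∧ ∀ i, H i 0 = 1

/-- Every row other than the first contains every `w`-th root of unity `v / w` times. -/
def RowBalanced (w : ℕ) {v : ℕ} [NeZero v] (H : Matrix (Fin v) (Fin v) ℂ) : Prop :=
  ∀ i, i ≠ 0 → ∀ z : ℂ, z ^ w = 1 → Nat.card {j // H i j = z} = v / w

/-- Every column other than the first contains every `w`-th root of unity `v / w` times. -/
def ColBalanced (w : ℕ) {v : ℕ} [NeZero v] (H : Matrix (Fin v) (Fin v) ℂ) : Prop :=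
  ∀ j, j ≠ 0 → ∀ z : ℂ, z ^ w = 1 → Nat.card {i // H i j = z} = v / w

/-- `H` is a generalised Hadamard matrix `GH(w, v / w)` over the `w`-th roots of unity. -/
def IsGH (w : ℕ) {v : ℕ} (H : Matrix (Fin v) (Fin v) ℂ) : Prop :=
  (∀ i j, H i j ^ w = 1) ∧ ∀ i k, i ≠ k → ∀ z : ℂ, z ^ w = 1 →
    Nat.card {j // H i j * (H k j)⁻¹ = z} = v / w

/-- Exponents of a `GH(4, 4)` of order 16. -/
def h (x y : Fin 16) : ZMod 4 :=
  ((7095494380466837999891949008765049323807175052561275356115582867370265712563886168726456630688469385270427266506377641332904138358191836770424301715193856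
    >>> (2 * (16 * x.val + y.val)) % 4 : ℕ) : ZMod 4)

/-- Exponents of the Sylvester Hadamard matrix of order 16. -/
def r (x y : Fin 16) : ZMod 4 :=
  let t := x.val &&& y.val
  ((2 * (t + t / 2 + t / 4 + t / 8) % 4 : ℕ) : ZMod 4)

theorem h_row : ∀ x x' : Fin 16, x ≠ x' → ∀ g : ZMod 4,
    (∑ w : Fin 16, if h x w - h x' w = g then 1 else 0) = 4 := by
  decide +kernel

theorem h_col : ∀ y : Fin 16, y ≠ 0 → ∀ g : ZMod 4,
    (∑ x : Fin 16, if h x y = g then 1 else 0) = 4 := by
  decide +kernel

theorem h_zero_left : ∀ y : Fin 16, h 0 y = 0 := by decide +kernel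

theorem h_zero_right : ∀ y : Fin 16, h y 0 = 0 := by decide +kernel

theorem r_zero_left : ∀ y : Fin 16, r 0 y = 0 := by decide +kernel

theorem r_even : ∀ x y : Fin 16, r x y ≠ 1 := by decide +kernel

theorem r_row : ∀ x x' : Fin 16, x ≠ x' →
    (∑ w : Fin 16, if r x w - r x' w = 0 then 1 else 0) = 8 ∧
    (∑ w : Fin 16, if r x w - r x' w = 1 then 1 else 0) = 0 ∧
    (∑ w : Fin 16, if r x w - r x' w = 2 then 1 else 0) = 8 ∧
    (∑ w : Fin 16, if r x w - r x' w = 3 then 1 else 0) = 0 := by
  decide +kernel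

/-- The index set of the rows and columns. -/
abbrev Idx : Type := Fin 16 × Fin 16 × Fin 16

/-- Exponents of the matrix: `h(z, w) + h(l, k) + h(j, i)`, but with `r(j, i)` in place of `h(j, i)`
when `z` and `k` are both nonzero. -/
def E (p q : Idx) : ZMod 4 :=
  h p.2.2 q.2.2 + h p.2.1 q.2.1 + if p.2.2 = 0 ∨ q.2.1 = 0 then h p.1 q.1 else r p.1 q.1

theorem I_pow : (Complex.I) ^ 4 = 1 := by
  rw [show (4 : ℕ) = 2 * 2 from rfl, pow_mul, Complex.I_sq]
  norm_num

/-- The character `a ↦ i^a`. -/
noncomputable def χ : AddChar (ZMod 4) ℂ := AddChar.zmodChar 4 I_pow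

theorem χ0 : χ 0 = 1 := AddChar.map_zero_eq_one χ

theorem χ1 : χ 1 = Complex.I := by
  rw [χ, AddChar.zmodChar_apply]
  rw [show (1 : ZMod 4).val = 1 from rfl, pow_one]

theorem χ2 : χ 2 = -1 := by
  rw [χ, AddChar.zmodChar_apply]
  rw [show (2 : ZMod 4).val = 2 from rfl, Complex.I_sq]

theorem χ3 : χ 3 = -Complex.I := by
  rw [χ, AddChar.zmodChar_apply]
  rw [show (3 : ZMod 4).val = 2 + 1 from rfl, pow_succ, Complex.I_sq]
  ring

theorem χ_pow (a : ZMod 4) : χ a ^ 4 = 1 := by
  rw [χ, AddChar.zmodChar_apply, ← pow_mul, mul_comm, pow_mul, I_pow, one_pow]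

theorem χ_inj {a b : ZMod 4} (hab : χ a = χ b) : a = b := by
  have h01 : (1 : ℂ) ≠ Complex.I := by
    intro e
    have := congrArg Complex.re e
    simp at this
  have h02 : (1 : ℂ) ≠ -1 := by norm_num
  have h03 : (1 : ℂ) ≠ -Complex.I := by
    intro e
    have := congrArg Complex.re e
    simp at this
  have h12 : Complex.I ≠ -1 := by
    intro e
    have := congrArg Complex.re e
    simp at this
  have h13 : Complex.I ≠ -Complex.I := by
    intro e
    have := congrArg Complex.im e
    norm_num at this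
  have h23 : (-1 : ℂ) ≠ -Complex.I := by
    intro e
    have := congrArg Complex.re e
    simp at this
  have hc : ∀ a : ZMod 4, a = 0 ∨ a = 1 ∨ a = 2 ∨ a = 3 := by decide
  rcases hc a with rfl | rfl | rfl | rfl <;> rcases hc b with rfl | rfl | rfl | rfl <;>
    simp only [χ0, χ1, χ2, χ3] at hab <;>
    first
      | rfl
      | exact absurd hab h01
      | exact absurd hab.symm h01
      | exact absurd hab h02
      | exact absurd hab.symm h02
      | exact absurd hab h03
      | exact absurd hab.symm h03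
      | exact absurd hab h12
      | exact absurd hab.symm h12
      | exact absurd hab h13
      | exact absurd hab.symm h13
      | exact absurd hab h23
      | exact absurd hab.symm h23

theorem χ_surj {z : ℂ} (hz : z ^ 4 = 1) : ∃ a : ZMod 4, χ a = z := by
  have h1 : (z - 1) * (z + 1) * ((z - Complex.I) * (z + Complex.I)) = 0 := by
    have : (z - Complex.I) * (z + Complex.I) = z ^ 2 + 1 := by
      ring_nf
      rw [Complex.I_sq]
      ring
    rw [this]
    linear_combination hz
  rcases mul_eq_zero.1 h1 with h2 | h2 <;> rcases mul_eq_zero.1 h2 with h3 | h3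
  · exact ⟨0, by rw [χ0]; linear_combination -h3⟩
  · exact ⟨2, by rw [χ2]; linear_combination -h3⟩
  · exact ⟨1, by rw [χ1]; linear_combination -h3⟩
  · exact ⟨3, by rw [χ3]; linear_combination -h3⟩

theorem χ_star (a : ZMod 4) : star (χ a) = χ (-a) := by
  have hc : ∀ a : ZMod 4, a = 0 ∨ a = 1 ∨ a = 2 ∨ a = 3 := by decide
  rcases hc a with rfl | rfl | rfl | rfl
  · rw [show (-0 : ZMod 4) = 0 from rfl, χ0, star_one]
  · rw [show (-1 : ZMod 4) = 3 from rfl, χ1, χ3]
    exact Complex.conj_I
  · rw [show (-2 : ZMod 4) = 2 from rfl, χ2, star_neg, star_one]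
  · rw [show (-3 : ZMod 4) = 1 from rfl, χ1, χ3, star_neg]
    have : star Complex.I = -Complex.I := Complex.conj_I
    rw [this, neg_neg]

theorem χ_ne (a : ZMod 4) : χ a ≠ 0 := by
  intro e
  have := χ_pow a
  rw [e] at this
  norm_num at this

/-- The character sum of a function in terms of its fibres. -/
theorem sum_χ (u : Fin 16 → ZMod 4) :
    ∑ w, χ (u w) = ((∑ w : Fin 16, if u w = 0 then 1 else 0 : ℕ) : ℂ) +
      ((∑ w : Fin 16, if u w = 1 then 1 else 0 : ℕ) : ℂ) * Complex.I -
      ((∑ w : Fin 16, if u w = 2 then 1 else 0 : ℕ) : ℂ) -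
      ((∑ w : Fin 16, if u w = 3 then 1 else 0 : ℕ) : ℂ) * Complex.I := by
  push_cast
  rw [Finset.sum_mul, Finset.sum_mul, ← Finset.sum_add_distrib, ← Finset.sum_sub_distrib,
    ← Finset.sum_sub_distrib]
  refine Finset.sum_congr rfl fun w _ => ?_
  have hc : ∀ a : ZMod 4, a = 0 ∨ a = 1 ∨ a = 2 ∨ a = 3 := by decide
  have n01 : (0 : ZMod 4) ≠ 1 := by decide
  have n02 : (0 : ZMod 4) ≠ 2 := by decide
  have n03 : (0 : ZMod 4) ≠ 3 := by decide
  have n12 : (1 : ZMod 4) ≠ 2 := by decide
  have n13 : (1 : ZMod 4) ≠ 3 := by decide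
  have n23 : (2 : ZMod 4) ≠ 3 := by decide
  rcases hc (u w) with e | e | e | e
  · rw [e, χ0, if_pos rfl, if_neg n01, if_neg n02, if_neg n03]; ring
  · rw [e, χ1, if_pos rfl, if_neg n01.symm, if_neg n12, if_neg n13]; ring
  · rw [e, χ2, if_pos rfl, if_neg n02.symm, if_neg n12.symm, if_neg n23]; ring
  · rw [e, χ3, if_pos rfl, if_neg n03.symm, if_neg n13.symm, if_neg n23.symm]; ring

theorem sum_h {x x' : Fin 16} (hx : x ≠ x') : ∑ w, χ (h x w - h x' w) = 0 := by
  rw [sum_χ fun w => h x w - h x' w, h_row x x' hx, h_row x x' hx, h_row x x' hx, h_row x x' hx]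
  ring

theorem sum_r {x x' : Fin 16} (hx : x ≠ x') : ∑ w, χ (r x w - r x' w) = 0 := by
  obtain ⟨h0, h1, h2, h3⟩ := r_row x x' hx
  rw [sum_χ fun w => r x w - r x' w, h0, h1, h2, h3]
  push_cast
  ring

theorem sum3 {M : Type*} [AddCommMonoid M] (F : Idx → M) :
    ∑ q, F q = ∑ i, ∑ k, ∑ w, F (i, k, w) := by
  rw [Fintype.sum_prod_type]
  refine Finset.sum_congr rfl fun i _ => ?_
  rw [Fintype.sum_prod_type]

theorem sum3' {M : Type*} [AddCommMonoid M] (F : Idx → M) :
    ∑ q, F q = ∑ i, ∑ w, ∑ k, F (i, k, w) := by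
  rw [sum3]
  exact Finset.sum_congr rfl fun i _ => Finset.sum_comm

theorem sum3'' {M : Type*} [AddCommMonoid M] (F : Idx → M) :
    ∑ q, F q = ∑ k, ∑ w, ∑ i, F (i, k, w) := by
  rw [sum3, Finset.sum_comm]
  exact Finset.sum_congr rfl fun k _ => Finset.sum_comm

/-- Orthogonality of the rows. -/
theorem orth {p p' : Idx} (hp : p ≠ p') : ∑ q, χ (E p q - E p' q) = 0 := by
  obtain ⟨j, l, z⟩ := p
  obtain ⟨j', l', z'⟩ := p'
  rw [sum3]
  by_cases hz : z = z'
  · subst hz
    by_cases hj : j = j'
    · subst hj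
      have hl : l ≠ l' := by
        rintro rfl
        exact hp rfl
      refine Finset.sum_eq_zero fun i _ => ?_
      have : ∀ k w : Fin 16, χ (E (j, l, z) (i, k, w) - E (j, l', z) (i, k, w)) =
          χ (h l k - h l' k) := by
        intro k w
        congr 1
        simp only [E]
        ring
      simp_rw [this]
      rw [Finset.sum_comm]
      exact Finset.sum_eq_zero fun w _ => sum_h hl
    · rw [Finset.sum_comm]
      refine Finset.sum_eq_zero fun k _ => ?_
      rw [Finset.sum_comm]
      refine Finset.sum_eq_zero fun w _ => ?_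
      by_cases hc : z = 0 ∨ k = 0
      · have : ∀ i : Fin 16, χ (E (j, l, z) (i, k, w) - E (j', l', z) (i, k, w)) =
            χ (h j i - h j' i) * χ (h l k - h l' k) := by
          intro i
          rw [← AddChar.map_add_eq_mul]
          congr 1
          simp only [E, if_pos hc]
          ring
        simp_rw [this]
        rw [← Finset.sum_mul, sum_h hj, zero_mul]
      · have : ∀ i : Fin 16, χ (E (j, l, z) (i, k, w) - E (j', l', z) (i, k, w)) =
            χ (r j i - r j' i) * χ (h l k - h l' k) := by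
          intro i
          rw [← AddChar.map_add_eq_mul]
          congr 1
          simp only [E, if_neg hc]
          ring
        simp_rw [this]
        rw [← Finset.sum_mul, sum_r hj, zero_mul]
  · refine Finset.sum_eq_zero fun i _ => Finset.sum_eq_zero fun k _ => ?_
    have : ∀ w : Fin 16, χ (E (j, l, z) (i, k, w) - E (j', l', z') (i, k, w)) =
        χ (h z w - h z' w) * χ (E (j, l, z) (i, k, 0) - E (j', l', z') (i, k, 0)) := by
      intro w
      rw [← AddChar.map_add_eq_mul]
      congr 1
      simp only [E, h_zero_right]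
      ring
    rw [Finset.sum_congr rfl fun w _ => this w, ← Finset.sum_mul, sum_h hz, zero_mul]

theorem shift (u : Fin 16 → ZMod 4)
    (hu : ∀ g : ZMod 4, (∑ w : Fin 16, if u w = g then 1 else 0) = 4) (c g : ZMod 4) :
    (∑ w : Fin 16, if u w + c = g then 1 else 0) = 4 := by
  refine Eq.trans ?_ (hu (g - c))
  refine Finset.sum_congr rfl fun w _ => ?_
  simp only [eq_sub_iff_add_eq]

theorem h_row' {x : Fin 16} (hx : x ≠ 0) (g : ZMod 4) :
    (∑ w : Fin 16, if h x w = g then 1 else 0) = 4 := by
  refine Eq.trans ?_ (h_row x 0 hx g)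
  refine Finset.sum_congr rfl fun w _ => ?_
  rw [h_zero_left, sub_zero]

/-- If the inner sums are all 4 the total is 1024. -/
theorem total {F : Fin 16 → Fin 16 → ℕ} (hF : ∀ a b, F a b = 4) : ∑ a, ∑ b, F a b = 1024 := by
  simp only [hF]
  rfl

/-- Rows are balanced. -/
theorem row_bal {p : Idx} (hp : p ≠ 0) (g : ZMod 4) :
    (∑ q, if E p q = g then 1 else 0) = 1024 := by
  obtain ⟨j, l, z⟩ := p
  by_cases hz : z = 0
  · subst hz
    by_cases hl : l = 0
    · subst hl
      have hj : j ≠ 0 := by
        rintro rfl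
        exact hp rfl
      rw [sum3'']
      refine total fun k w => ?_
      refine Eq.trans ?_ (h_row' hj g)
      refine Finset.sum_congr rfl fun i _ => ?_
      simp [E, h_zero_left]
    · rw [sum3']
      refine total fun i w => ?_
      refine Eq.trans ?_ (shift (fun k => h l k) (h_row' hl) (h j i) g)
      refine Finset.sum_congr rfl fun k _ => ?_
      simp [E, h_zero_left]
  · rw [sum3]
    refine total fun i k => ?_
    refine Eq.trans ?_ (shift (fun w => h z w) (h_row' hz) (E (j, l, z) (i, k, 0)) g)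
    refine Finset.sum_congr rfl fun w _ => ?_
    simp only [E, h_zero_right, zero_add, add_assoc]

/-- Columns are balanced. -/
theorem col_bal {q : Idx} (hq : q ≠ 0) (g : ZMod 4) :
    (∑ p, if E p q = g then 1 else 0) = 1024 := by
  obtain ⟨i, k, w⟩ := q
  by_cases hk : k = 0
  · subst hk
    by_cases hw : w = 0
    · subst hw
      have hi : i ≠ 0 := by
        rintro rfl
        exact hq rfl
      rw [sum3'']
      refine total fun l z => ?_
      refine Eq.trans ?_ (h_col i hi g)
      refine Finset.sum_congr rfl fun j _ => ?_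
      simp [E, h_zero_right]
    · rw [sum3]
      refine total fun j l => ?_
      refine Eq.trans ?_ (shift (fun z => h z w) (h_col w hw) (h j i) g)
      refine Finset.sum_congr rfl fun z _ => ?_
      simp [E, h_zero_right]
  · rw [sum3']
    refine total fun j z => ?_
    refine Eq.trans ?_ (shift (fun l => h l k) (h_col k hk) (E (j, 0, z) (i, k, w)) g)
    refine Finset.sum_congr rfl fun l _ => ?_
    simp only [E, h_zero_left, zero_add, add_assoc, add_left_comm]

/-- Enumeration of the index set. -/
def e : Fin 4096 ≃ Idx :=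
  (finProdFinEquiv (m := 16) (n := 256)).symm.trans
    ((Equiv.refl (Fin 16)).prodCongr (finProdFinEquiv (m := 16) (n := 16)).symm)

theorem e_zero : e 0 = 0 := by decide +kernel

/-- The matrix. -/
noncomputable def H : Matrix (Fin 4096) (Fin 4096) ℂ := fun a b => χ (E (e a) (e b))

theorem card_eq (f : Fin 4096 → ZMod 4) (F : Idx → ZMod 4) (hf : ∀ b, f b = F (e b)) {z : ℂ}
    (hz : z ^ 4 = 1) (n : ℕ) (hn : ∀ g, (∑ q, if F q = g then 1 else 0) = n) :
    Nat.card {b // χ (f b) = z} = n := by
  obtain ⟨g, rfl⟩ := χ_surj hz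
  rw [← hn g, Nat.card_eq_fintype_card, Fintype.card_subtype, Finset.card_filter,
    ← Equiv.sum_comp e]
  refine Finset.sum_congr rfl fun b _ => ?_
  rw [hf]
  by_cases hc : F (e b) = g
  · rw [if_pos hc, if_pos (by rw [hc])]
  · rw [if_neg hc, if_neg fun h => hc (χ_inj h)]

theorem H_butson : IsButson 4 H := by
  refine ⟨fun i j => χ_pow _, ?_⟩
  ext a b
  rw [Matrix.mul_apply, Matrix.smul_apply, Matrix.one_apply]
  have h1 : ∀ c, H a c * Hᴴ c b = χ (E (e a) (e c) - E (e b) (e c)) := by
    intro c
    rw [Matrix.conjTranspose_apply, H, H, χ_star, ← AddChar.map_add_eq_mul, sub_eq_add_neg]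
  simp_rw [h1]
  rw [Equiv.sum_comp e fun q => χ (E (e a) q - E (e b) q)]
  by_cases hab : a = b
  · subst hab
    simp [χ0, Fintype.card_prod]
  · rw [if_neg hab, orth fun h => hab (e.injective h)]
    simp

/-- **Answer to Q1 (negative).** -/
theorem result : ¬ ∀ (w v : ℕ) [NeZero v], 2 ≤ w → w ∣ v → ∀ H : Matrix (Fin v) (Fin v) ℂ,
    IsButson w H → Normalised H → RowBalanced w H → ColBalanced w H → IsGH w H := by
  intro hall
  have h1 := hall 4 4096 (by norm_num) (by norm_num) H H_butson ?_ ?_ ?_
  · have hne : e.symm (1, 0, 1) ≠ e.symm (0, 0, 1) := by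
      intro h
      have := e.symm.injective h
      revert this
      decide
    have h2 := h1.2 _ _ hne (χ 1) (χ_pow 1)
    have h3 : Nat.card {c // H (e.symm (1, 0, 1)) c * (H (e.symm (0, 0, 1)) c)⁻¹ = χ 1} ≤ 256 := by
      rw [Nat.card_eq_fintype_card, Fintype.card_subtype]
      calc _ ≤ ((univ : Finset (Fin 16 × Fin 16)).image
            fun t => e.symm (t.1, 0, t.2)).card := by
            refine Finset.card_le_card fun c hc => ?_
            rw [Finset.mem_filter] at hc
            rw [Finset.mem_image]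
            refine ⟨((e c).1, (e c).2.2), mem_univ _, ?_⟩
            rw [Equiv.symm_apply_eq]
            have hk : (e c).2.1 = 0 := by
              by_contra hk
              have h4 : H (e.symm (1, 0, 1)) c * (H (e.symm (0, 0, 1)) c)⁻¹ =
                  χ (r 1 (e c).1) := by
                have h5 : H (e.symm (1, 0, 1)) c = χ (E (1, 0, 1) (e c)) := by
                  unfold H
                  rw [Equiv.apply_symm_apply]
                have h6 : H (e.symm (0, 0, 1)) c = χ (E (0, 0, 1) (e c)) := by
                  unfold H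
                  rw [Equiv.apply_symm_apply]
                rw [h5, h6, mul_inv_eq_iff_eq_mul₀ (χ_ne _), ← AddChar.map_add_eq_mul]
                congr 1
                have h10 : ¬ ((1 : Fin 16) = 0 ∨ (e c).2.1 = 0) := by
                  rintro (h | h)
                  · exact absurd h (by decide)
                  · exact hk h
                simp only [E, if_neg h10, r_zero_left]
                ring
              rw [h4] at hc
              exact r_even _ _ (χ_inj hc.2)
            ext <;> simp [hk]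
        _ ≤ 256 := by
            refine Finset.card_image_le.trans ?_
            simp
    rw [h2] at h3
    norm_num at h3
  · constructor
    · intro b
      rw [H, e_zero]
      simp [E, h_zero_left, χ0]
    · intro a
      rw [H, e_zero]
      simp [E, h_zero_right, χ0]
  · intro a ha z hz
    have hp : e a ≠ 0 := by
      intro h
      exact ha (e.injective (by rw [h, e_zero]))
    exact card_eq (fun b => E (e a) (e b)) (fun q => E (e a) q) (fun b => rfl) hz _
      fun g => row_bal hp g
  · intro b hb z hz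
    have hp : e b ≠ 0 := by
      intro h
      exact hb (e.injective (by rw [h, e_zero]))
    exact card_eq (fun a => E (e a) (e b)) (fun q => E q (e b)) (fun a => rfl) hz _
      fun g => col_bal hp g

end Pool.Agent.Results.MP_56f6b7_co.BalancedNotGH
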